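import Pool.Agent.N112.WM.Stm
import Pool.Agent.H217R3.AK.Bsg
import Pool.Agent.N427.PT.WeakAll

set_option autoImplicit false
set_option maxHeartbeats 4000000
set_option synthInstance.maxHeartbeats 400000

/-! # WM4: finite groups, assembly with the Balog–Szemerédi–Gowers theorem -/

namespace Pool.Agent.N316.WM

open Finset
open scoped Pointwise
open Pool.Agent.N112.WM

universe u

/-- Balog–Szemerédi–Gowers, doubling form. -/
theorem bsg_sum {G : Type*} [AddCommGroup G] [DecidableEq G] (Q : Finset G) (hQ : Q.Nonempty)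
    (L : ℝ) (hL : 1 ≤ L) (hE : (Q.card : ℝ) ^ 3 ≤ 8 * L ^ 3 * (Q.addEnergy Q : ℕ)) :
    ∃ B ⊆ Q, B.Nonempty ∧ (Q.card : ℝ) ≤ 64 * L ^ 3 * B.card ∧
      ((B + B).card : ℝ) ≤ 2 ^ 104 * L ^ 60 * B.card := by
  have hL0 : 0 < L := by linarith
  obtain ⟨B, hBQ, hB, h1, h2⟩ := Pool.Agent.H217R3.AK.bsg Q hQ (8 * L ^ 3) (by positivity) hE
  refine ⟨B, hBQ, hB, by linarith, ?_⟩
  have hB0 : (0 : ℝ) < B.card := by exact_mod_cast hB.card_pos
  have h3 := Finset.pluennecke_ruzsa_inequality_nsmul_sub_nsmul_sub hB B 2 0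
  rw [two_nsmul, zero_nsmul, sub_zero] at h3
  have h4 : ((B + B).card : ℝ) ≤ (((B - B).card : ℝ) / B.card) ^ 2 * B.card := by
    have h5 := (NNRat.cast_le (K := ℝ)).2 h3
    push_cast at h5
    simpa using h5
  have h5 : ((B - B).card : ℝ) / B.card ≤ 2 ^ 52 * L ^ 30 := by
    rw [div_le_iff₀ hB0]
    refine h2.trans (le_of_eq ?_)
    ring
  calc ((B + B).card : ℝ) ≤ (((B - B).card : ℝ) / B.card) ^ 2 * B.card := h4
    _ ≤ (2 ^ 52 * L ^ 30) ^ 2 * B.card := by
        gcongr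
    _ = _ := by ring

/-- pigeonhole -/
theorem pigeon {G : Type*} [AddCommGroup G] (B T : Finset G) (V : AddSubgroup G) (hB : B.Nonempty)
    (h : ∀ χ ∈ B, ∃ t ∈ T, χ - t ∈ V) :
    ∃ t ∈ T, ∃ Q' ⊆ B, (∀ χ ∈ Q', χ - t ∈ V) ∧ B.card ≤ T.card * Q'.card := by
  classical
  obtain ⟨b0, hb0⟩ := hB
  obtain ⟨t0, ht0, -⟩ := h b0 hb0
  choose! τ hτ1 hτ2 using h
  obtain ⟨t, ht, hmax⟩ := Finset.exists_max_image T (fun t => (B.filter (fun χ => τ χ = t)).card)
    ⟨t0, ht0⟩
  refine ⟨t, ht, B.filter (fun χ => τ χ = t), Finset.filter_subset _ _, ?_, ?_⟩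
  · intro χ hχ
    rw [Finset.mem_filter] at hχ
    rw [← hχ.2]
    exact hτ2 χ hχ.1
  · rw [Finset.card_eq_sum_card_fiberwise (f := τ) (s := B) (t := T) (fun χ hχ => hτ1 χ hχ)]
    refine (Finset.sum_le_card_nsmul T _ _ fun s hs => hmax s hs).trans ?_
    rw [smul_eq_mul]

theorem num0 (L : ℝ) (hL : 1 ≤ L) : 2 * (2 ^ 104 * L ^ 60) ≤ (2 * L) ^ (105 : ℕ) := by
  have h5 : L ^ 60 ≤ L ^ 105 := pow_le_pow_right₀ hL (by norm_num)
  calc 2 * (2 ^ 104 * L ^ 60) = 2 ^ 105 * L ^ 60 := by ring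
    _ ≤ 2 ^ 105 * L ^ 105 := by gcongr
    _ = _ := by ring

/-- numbers, first part -/
theorem num1 (L η t : ℝ) (hL : 1 ≤ L) (hη0 : 0 < η) (hη1 : η ≤ 1) (ht0 : 0 ≤ t)
    (ht : t ≤ (2 * (2 ^ 104 * L ^ 60)) ^ (30000 / η)) :
    256 * L ^ 6 * t ≤ (2 * L) ^ (4 * 10 ^ 8 / η) := by
  have hL0 : 0 < L := by linarith
  have h2L : (1 : ℝ) < 2 * L := by linarith
  have hK2 := num0 L hL
  have hK2pos : 0 < 2 * (2 ^ 104 * L ^ 60) := by positivity
  have h5 : t ≤ (2 * L) ^ (3150000 / η) := by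
    refine ht.trans ?_
    calc (2 * (2 ^ 104 * L ^ 60)) ^ (30000 / η) ≤ ((2 * L) ^ (105 : ℕ)) ^ (30000 / η) := by
          exact Real.rpow_le_rpow hK2pos.le hK2 (by positivity)
      _ = (2 * L) ^ (3150000 / η) := by
          rw [← Real.rpow_natCast, ← Real.rpow_mul (by linarith)]
          congr 1
          push_cast
          ring
  have h6 : 256 * L ^ 6 ≤ (2 * L) ^ (8 : ℝ) := by
    have h7 : L ^ 6 ≤ L ^ 8 := pow_le_pow_right₀ hL (by norm_num)
    have h8 : (2 * L) ^ (8 : ℝ) = (2 * L) ^ (8 : ℕ) := by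
      rw [← Real.rpow_natCast]
      norm_num
    rw [h8]
    calc 256 * L ^ 6 ≤ 256 * L ^ 8 := by gcongr
      _ = _ := by ring
  calc 256 * L ^ 6 * t ≤ (2 * L) ^ (8 : ℝ) * (2 * L) ^ (3150000 / η) := by gcongr
    _ = (2 * L) ^ (8 + 3150000 / η) := by rw [← Real.rpow_add (by linarith)]
    _ ≤ (2 * L) ^ (4 * 10 ^ 8 / η) := by
        apply Real.rpow_le_rpow_of_exponent_le h2L.le
        rw [le_div_iff₀ hη0, add_mul, div_mul_cancel₀ _ hη0.ne']
        linarith

/-- numbers, second part -/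
theorem num2 (L η lp s : ℝ) (hL : 1 ≤ L) (hη0 : 0 < η) (hη1 : η ≤ 1) (hlp : 0 < lp)
    (hs : s ≤ 30000 / η * (Real.log (2 * (2 ^ 104 * L ^ 60)) +
      Real.log (2 * (2 ^ 104 * L ^ 60)) ^ (1 + η) / lp) + 1) :
    s ≤ 4 * 10 ^ 8 / η * (Real.log (2 * L) + Real.log (2 * L) ^ (1 + η) / lp) + 1 := by
  have hL0 : 0 < L := by linarith
  have h2L : (1 : ℝ) < 2 * L := by linarith
  have hK2 := num0 L hL
  have hK2pos : 0 < 2 * (2 ^ 104 * L ^ 60) := by positivity
  have hK2one : 1 ≤ 2 * (2 ^ 104 * L ^ 60) := by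
    have : (1 : ℝ) ≤ L ^ 60 := one_le_pow₀ hL
    linarith
  have hlogK2 : Real.log (2 * (2 ^ 104 * L ^ 60)) ≤ 105 * Real.log (2 * L) := by
    have h5 := Real.log_le_log hK2pos hK2
    rw [Real.log_pow] at h5
    exact_mod_cast h5
  have hlogK20 : 0 ≤ Real.log (2 * (2 ^ 104 * L ^ 60)) := Real.log_nonneg hK2one
  have hlam0 : 0 < Real.log (2 * L) := Real.log_pos h2L
  generalize Real.log (2 * (2 ^ 104 * L ^ 60)) = k at hs hlogK2 hlogK20
  generalize Real.log (2 * L) = lam at hlogK2 hlam0 ⊢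
  have h8 : k ^ (1 + η) ≤ 11025 * lam ^ (1 + η) := by
    calc k ^ (1 + η) ≤ (105 * lam) ^ (1 + η) :=
          Real.rpow_le_rpow hlogK20 hlogK2 (by linarith)
      _ = 105 ^ (1 + η) * lam ^ (1 + η) := Real.mul_rpow (by norm_num) hlam0.le
      _ ≤ 105 ^ (2 : ℝ) * lam ^ (1 + η) := by
          gcongr
          · norm_num
          · linarith
      _ = 11025 * lam ^ (1 + η) := by norm_num
  have h9 : 0 ≤ lam ^ (1 + η) := Real.rpow_nonneg hlam0.le _
  have h10 : k + k ^ (1 + η) / lp ≤ 11025 * (lam + lam ^ (1 + η) / lp) := by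
    have h11 : k ^ (1 + η) / lp ≤ 11025 * lam ^ (1 + η) / lp := by gcongr
    have h12 : 11025 * (lam + lam ^ (1 + η) / lp) = 11025 * lam + 11025 * lam ^ (1 + η) / lp := by
      ring
    rw [h12]
    linarith
  have h11 : 0 ≤ lam + lam ^ (1 + η) / lp := by positivity
  refine hs.trans ?_
  calc 30000 / η * (k + k ^ (1 + η) / lp) + 1
      ≤ 30000 / η * (11025 * (lam + lam ^ (1 + η) / lp)) + 1 := by gcongr
    _ = 330750000 / η * (lam + lam ^ (1 + η) / lp) + 1 := by ring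
    _ ≤ 4 * 10 ^ 8 / η * (lam + lam ^ (1 + η) / lp) + 1 := by
        gcongr
        norm_num

theorem fin (h1 : StmSpec.{u}) (h2 : StmCoset.{u}) (h3 : StmRank.{u}) : StmFin.{u} := by
  intro H _ _ _ D L M η p₀ hD hDD hL hM hη0 hη1 hp₀ hNT
  classical
  have hL0 : 0 < L := by linarith
  have hp1 : (1 : ℝ) < p₀ := by exact_mod_cast (by omega : 1 < p₀)
  have hlp : 0 < Real.log p₀ := Real.log_pos hp1
  have hD0 : (0 : ℝ) < D.card := by exact_mod_cast hD.card_pos
  obtain ⟨Q, hQne, hQ1, hQ2, hQ3, hQ4⟩ := h1 H D L hD hDD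
  have hQ0 : (0 : ℝ) < Q.card := by exact_mod_cast hQne.card_pos
  obtain ⟨B, hBQ, hB, hB1, hB2⟩ := bsg_sum Q hQne L hL (by convert hQ4)
  have hB0 : (0 : ℝ) < B.card := by exact_mod_cast hB.card_pos
  have hNT' : NoTor p₀ (AddChar H ℂ) := (h3 H).2 p₀ hNT
  obtain ⟨V', S', T', hV'fin, hV', hS', hT', hcov⟩ := Pool.Agent.N427.PT.weak_all hB hB2 hη0 hη1
    hp₀ hNT'
  have hprime' : ∀ p : ℕ, p.Prime → (p : ℝ) < (p₀ : ℝ) → ∀ x : AddChar H ℂ, p • x = 0 → x = 0 := by
    intro p hp hlt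
    exact hNT' p hp (by exact_mod_cast hlt)
  obtain ⟨V'', S'', -, hV''1, hV''2, hS''⟩ := Pool.Agent.N427.PT.chain hp1.le hprime' le_rfl
    (Nat.card V') V' hV'fin rfl
  have hV''bot : V'' = ⊥ := by
    have : Finite V'' := by
      have h5 : V'' ≤ V' := by rw [hV''2]; exact le_sup_left
      exact Finite.Set.subset (V' : Set (AddChar H ℂ)) h5
    rw [AddSubgroup.eq_bot_of_card_le V'' hV''1]
  rw [hV''bot, bot_sup_eq] at hV''2
  set X : Finset (AddChar H ℂ) := S' ∪ S'' with hX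
  set V : AddSubgroup (AddChar H ℂ) := AddSubgroup.closure (X : Set (AddChar H ℂ)) with hV
  have hVeq : V' ⊔ AddSubgroup.closure (S' : Set (AddChar H ℂ)) = V := by
    rw [hV, hX, Finset.coe_union, AddSubgroup.closure_union, hV''2, sup_comm]
  rw [hVeq] at hcov
  obtain ⟨χ₀, hχ₀, Q', hQ'B, hQ'1, hQ'2⟩ := pigeon B T' V hB hcov
  obtain ⟨hcardV, hcos⟩ := h2 H V
  obtain ⟨E, hED, hEne, hE1, hE2⟩ := hcos D χ₀ Q' hD hQ'1
  obtain ⟨S, hS1, hS2⟩ := (h3 H).1 X
  have hE0 : (0 : ℝ) < E.card := by exact_mod_cast hEne.card_pos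
  -- the sets
  set F : Finset H := (Set.toFinite ((perp V : AddSubgroup H) : Set H)).toFinset with hF
  have hFmem : ∀ x, x ∈ F ↔ x ∈ perp V := by
    intro x
    rw [hF, Set.Finite.mem_toFinset]
    rfl
  have hFcoe : (F : Set H) = ((perp V : AddSubgroup H) : Set H) := by
    rw [hF, Set.Finite.coe_toFinset]
  have hFcard : Nat.card (perp V) = F.card := by
    rw [← Set.ncard_coe_finset F, hFcoe]
    rfl
  have hVc0 : (0 : ℝ) < Nat.card V := by
    have : Finite V := inferInstance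
    exact_mod_cast Nat.card_pos
  -- the size of `E`
  have hq1 : (Q'.card : ℝ) * D.card ≤ 2 * L * Nat.card V * E.card := by
    have h5 : (Q'.card : ℝ) * (D.card : ℝ) ^ 2 ≤ 2 * L * ∑ χ ∈ Q', ‖ft D χ‖ ^ 2 := by
      rw [Finset.mul_sum]
      have h6 : ∑ χ ∈ Q', (D.card : ℝ) ^ 2 ≤ ∑ χ ∈ Q', 2 * L * ‖ft D χ‖ ^ 2 :=
        Finset.sum_le_sum fun χ hχ => hQ1 χ (hBQ (hQ'B hχ))
      rwa [Finset.sum_const, nsmul_eq_mul] at h6
    have h6 : (Q'.card : ℝ) * (D.card : ℝ) ^ 2 ≤ 2 * L * (Nat.card V * (D.card * E.card : ℝ)) :=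
      h5.trans (by gcongr)
    have h7 : (Q'.card * D.card : ℝ) * D.card ≤ (2 * L * Nat.card V * E.card) * D.card := by
      calc (Q'.card * D.card : ℝ) * D.card = (Q'.card : ℝ) * (D.card : ℝ) ^ 2 := by ring
        _ ≤ _ := h6
        _ = _ := by ring
    exact le_of_mul_le_mul_right h7 hD0
  have hT'0 : (0 : ℝ) ≤ T'.card := by positivity
  have hq2 : (B.card : ℝ) ≤ T'.card * Q'.card := by exact_mod_cast hQ'2
  have hcardV' : (Nat.card V : ℝ) * F.card = Nat.card H := by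
    rw [← hFcard]
    exact_mod_cast hcardV
  have hFE : (F.card : ℝ) ≤ 256 * L ^ 5 * T'.card * E.card := by
    have h5 : (Nat.card V : ℝ) * F.card ≤ Nat.card V * (256 * L ^ 5 * T'.card * E.card) := by
      rw [hcardV']
      calc (Nat.card H : ℝ) ≤ 2 * L * D.card * Q.card := hQ2
        _ ≤ 2 * L * D.card * (64 * L ^ 3 * B.card) := by gcongr
        _ ≤ 2 * L * D.card * (64 * L ^ 3 * (T'.card * Q'.card)) := by gcongr
        _ = 128 * L ^ 4 * T'.card * (Q'.card * D.card) := by ring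
        _ ≤ 128 * L ^ 4 * T'.card * (2 * L * Nat.card V * E.card) := by gcongr
        _ = _ := by ring
    exact le_of_mul_le_mul_left h5 hVc0
  -- the Ruzsa triangle inequality
  have hR : ((D + F).card : ℝ) ≤ 256 * L ^ 6 * T'.card * D.card := by
    have h5 := Finset.ruzsa_triangle_inequality_add_add_add D E F
    have h6 : (D + E).card ≤ (D + D).card := Finset.card_le_card (Finset.add_subset_add_left hED)
    have h7 : (E + F).card ≤ F.card := by
      obtain ⟨e0, he0⟩ := hEne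
      have : E + F ⊆ F.image (fun x => e0 + x) := by
        intro x hx
        obtain ⟨e, he, f, hf, rfl⟩ := Finset.mem_add.1 hx
        refine Finset.mem_image.2 ⟨(e - e0) + f, ?_, by abel⟩
        rw [hFmem] at hf ⊢
        exact add_mem (hE1 e he e0 he0) hf
      exact (Finset.card_le_card this).trans Finset.card_image_le
    have h8 : ((D + F).card : ℝ) * E.card ≤ (D + D).card * F.card := by
      have : (D + F).card * E.card ≤ (D + D).card * F.card := by
        refine h5.trans (Nat.mul_le_mul h6 h7)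
      exact_mod_cast this
    have h9 : ((D + F).card : ℝ) * E.card ≤ (256 * L ^ 6 * T'.card * D.card) * E.card := by
      calc ((D + F).card : ℝ) * E.card ≤ (D + D).card * F.card := h8
        _ ≤ (L * D.card) * (256 * L ^ 5 * T'.card * E.card) := by gcongr
        _ = _ := by ring
    exact le_of_mul_le_mul_right h9 hE0
  refine ⟨perp V, S, ?_, ?_, hS2⟩
  · rw [← hFcoe, ← Finset.coe_add, Set.ncard_coe_finset]
    refine hR.trans ?_
    exact mul_le_mul_of_nonneg_right (num1 L η T'.card hL hη0 hη1 hT'0 hT') hD0.le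
  · have h5 : (S.card : ℝ) ≤ S'.card + S''.card := by
      have : S.card ≤ S'.card + S''.card := hS1.trans (Finset.card_union_le _ _)
      exact_mod_cast this
    have hQM : (Q.card : ℝ) ≤ 2 * L * M := by
      have h6 : (Q.card : ℝ) * D.card ≤ (2 * L * M) * D.card := by
        calc (Q.card : ℝ) * D.card ≤ 2 * L * Nat.card H := hQ3
          _ ≤ 2 * L * (M * D.card) := by gcongr
          _ = _ := by ring
      exact le_of_mul_le_mul_right h6 hD0
    have hQone : (1 : ℝ) ≤ Q.card := by exact_mod_cast hQne.card_pos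
    have h6 : (S''.card : ℝ) ≤ 1 + Real.log (2 * L * M) / Real.log p₀ := by
      have h7 : 0 ≤ Real.log (2 * L * M) / Real.log p₀ :=
        div_nonneg (Real.log_nonneg (by linarith)) hlp.le
      rcases hS'' with h8 | h8
      · rw [h8]
        push_cast
        linarith
      · have h9 : (p₀ : ℝ) ^ (S''.card - 1) ≤ 2 * L * M := by
          have h10 : (Nat.card V' : ℝ) ≤ B.card := by exact_mod_cast hV'
          have h11 : (B.card : ℝ) ≤ Q.card := by exact_mod_cast Finset.card_le_card hBQ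
          rw [Nat.cast_one, mul_one] at h8
          linarith
        have h10 : ((S''.card - 1 : ℕ) : ℝ) * Real.log p₀ ≤ Real.log (2 * L * M) := by
          have := Real.log_le_log (by positivity) h9
          rwa [Real.log_pow] at this
        have h11 : ((S''.card - 1 : ℕ) : ℝ) ≤ Real.log (2 * L * M) / Real.log p₀ := by
          rw [le_div_iff₀ hlp]
          exact h10
        have h12 : (S''.card : ℝ) ≤ ((S''.card - 1 : ℕ) : ℝ) + 1 := by
          have : S''.card ≤ (S''.card - 1) + 1 := by omega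
          exact_mod_cast this
        linarith
    have h7 := num2 L η (Real.log p₀) S'.card hL hη0 hη1 hlp hS'
    linarith

end Pool.Agent.N316.WM
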